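import Mathlib

namespace Pool.Agent.N658.SP.Oct

open Cardinal

universe u

/-- `κ`-octahedral real Banach space: for every `ε > 0` and every subspace `Y` of density at most
`κ` some unit vector `x` satisfies `‖l x + y‖ ≥ (1 - ε) (|l| + ‖y‖)` for all `l` and `y ∈ Y`. -/
def KOct (κ : Cardinal.{u}) (X : Type u) [NormedAddCommGroup X] [NormedSpace ℝ X] : Prop :=
  ∀ ε : ℝ, 0 < ε → ∀ Y : Submodule ℝ X,
    (∃ D : Set X, D ⊆ (Y : Set X) ∧ #D ≤ κ ∧ (Y : Set X) ⊆ closure D) →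
    ∃ x : X, ‖x‖ = 1 ∧ ∀ (l : ℝ) (y : X), y ∈ Y → (1 - ε) * (|l| + ‖y‖) ≤ ‖l • x + y‖

/-- `X` has a subspace isomorphic to `ℓ₁(Γ)`. -/
def ContainsL1 (Γ X : Type u) [NormedAddCommGroup X] [NormedSpace ℝ X] : Prop :=
  ∃ T : lp (fun _ : Γ => ℝ) 1 →L[ℝ] X, ∃ c : ℝ, 0 < c ∧ ∀ w, c * ‖w‖ ≤ ‖T w‖

/-- `val r y [a₁, ..., a_k] = |y a₁| + r |y a₂| + ... + r^(k-1) |y a_k|`. -/
def val {I : Type u} (r : ℝ) (y : I → ℝ) : List I → ℝ
  | [] => 0
  | a :: l => |y a| + r * val r y l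

/-- supremum of `val r y l` over the strictly decreasing finite lists `l`. -/
noncomputable def nrm {I : Type u} [LinearOrder I] (r : ℝ) (y : I → ℝ) : ℝ :=
  sSup {v : ℝ | ∃ l : List I, l.Pairwise (fun a b => b < a) ∧ v = val r y l}

/-- functions on `I` which tend to zero. -/
def C0 (I : Type u) : Submodule ℝ (I → ℝ) where
  carrier := {y | ∀ d : ℝ, 0 < d → {a | d ≤ |y a|}.Finite}
  add_mem' := by
    intro x y hx hy d hd
    refine ((hx (d / 2) (by positivity)).union (hy (d / 2) (by positivity))).subset ?_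
    intro a ha
    simp only [Set.mem_ofPred_eq, Pi.add_apply, Set.mem_union] at ha ⊢
    by_contra hcon
    push Not at hcon
    have := abs_add_le (x a) (y a)
    linarith [hcon.1, hcon.2]
  zero_mem' := by
    intro d hd
    have : {a : I | d ≤ |(0 : I → ℝ) a|} = ∅ := by
      ext a; simp [hd]
    rw [this]; exact Set.finite_empty
  smul_mem' := by
    intro c x hx d hd
    by_cases hc : c = 0
    · subst hc
      have : {a : I | d ≤ |((0 : ℝ) • x) a|} = ∅ := by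
        ext a; simp [hd]
      rw [this]; exact Set.finite_empty
    · have hc' : 0 < |c| := abs_pos.mpr hc
      refine (hx (d / |c|) (by positivity)).subset ?_
      intro a ha
      simp only [Set.mem_ofPred_eq, Pi.smul_apply, smul_eq_mul, abs_mul] at ha ⊢
      rw [div_le_iff₀ hc']; linarith [mul_comm |c| |x a|]

/-- the weight of level `n`. -/
noncomputable def rr (n : ℕ) : ℝ := 1 - 1 / ((n : ℝ) + 2)

/-- basic facts about `nrm` (`y` bounded by `C`, `0 ≤ r < 1`). -/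
def StmNrm : Prop :=
  ∀ (I : Type u) [LinearOrder I] (r : ℝ), 0 ≤ r → r < 1 →
    (∀ (y : I → ℝ) (C : ℝ), (∀ a, |y a| ≤ C) → 0 ≤ C →
      BddAbove {v : ℝ | ∃ l : List I, l.Pairwise (fun a b => b < a) ∧ v = val r y l} ∧
      nrm r y ≤ C / (1 - r) ∧ 0 ≤ nrm r y ∧ (∀ a, |y a| ≤ nrm r y)) ∧
    (∀ (x y : I → ℝ) (C : ℝ), (∀ a, |x a| ≤ C) → (∀ a, |y a| ≤ C) →
      nrm r (x + y) ≤ nrm r x + nrm r y) ∧
    (∀ (c : ℝ) (y : I → ℝ), nrm r (c • y) = |c| * nrm r y) ∧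
    (∀ (y : I → ℝ) (C : ℝ), (∀ a, |y a| ≤ C) → ∀ (a : I) (s : ℝ), (∀ b, a ≤ b → y b = 0) →
      |s| + r * nrm r y ≤ nrm r (Pi.single a s + y))

/-- the elementary reason why `c₀(J)` contains no copy of `ℓ₁`. -/
def StmC0 : Prop :=
  ∀ (Γ : Type u) (J : Type u) (t : Γ → J → ℝ) (C : ℝ) (G : Set Γ), G.Infinite →
    (∀ g j, |t g j| ≤ C) → (∀ g, ∀ d : ℝ, 0 < d → {j | d ≤ |t g j|}.Finite) →
    ∀ (m : ℕ) (d : ℝ), 0 < d → ∃ p q : Fin m → Γ,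
      (∀ i, p i ∈ G ∧ q i ∈ G) ∧
      Function.Injective p ∧ Function.Injective q ∧ (∀ i k, p i ≠ q k) ∧
      ∀ j, |∑ i, (t (p i) j - t (q i) j)| ≤ 2 * C + m * d

/-- level `n` is a Banach space. -/
def StmInst : Prop :=
  ∀ (I : Type u) [LinearOrder I] (n : ℕ), ∃ (E : Type u) (_ : NormedAddCommGroup E)
    (_ : NormedSpace ℝ E) (_ : CompleteSpace E) (φ : E ≃ₗ[ℝ] (C0 I)),
    ∀ y : E, ‖y‖ = nrm (rr n) (φ y : I → ℝ)

/-- the `ℓ₁`-sum of the levels is `κ`-octahedral. -/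
def StmKOct : Prop :=
  ∀ (κ : Cardinal.{u}), ℵ₀ ≤ κ → ∀ (I : Type u) [LinearOrder I],
    (∀ S : Set I, #S ≤ κ → ∃ a : I, ∀ b ∈ S, b < a) →
    ∀ (E : ℕ → Type u) [∀ n, NormedAddCommGroup (E n)] [∀ n, NormedSpace ℝ (E n)]
    (φ : ∀ n, E n ≃ₗ[ℝ] (C0 I)), (∀ n (y : E n), ‖y‖ = nrm (rr n) (φ n y : I → ℝ)) →
    KOct κ (lp E 1)

/-- the `ℓ₁`-sum of the levels contains no `ℓ₁(Γ)` with `Γ` uncountable. -/
def StmNoL1 : Prop :=
  ∀ (I : Type u) [LinearOrder I]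
    (E : ℕ → Type u) [∀ n, NormedAddCommGroup (E n)] [∀ n, NormedSpace ℝ (E n)]
    (φ : ∀ n, E n ≃ₗ[ℝ] (C0 I)), (∀ n (y : E n), ‖y‖ = nrm (rr n) (φ n y : I → ℝ)) →
    ∀ (Γ : Type u), ℵ₀ < #Γ → ¬ ContainsL1 Γ (lp E 1)

end Pool.Agent.N658.SP.Oct
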