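import Mathlib

namespace Pool.Agent.N658.SP.Bcp

open Cardinal

universe u

/-- `X` has a subspace isomorphic to `ℓ₁(Γ)`. -/
def ContainsL1 (Γ X : Type u) [NormedAddCommGroup X] [NormedSpace ℝ X] : Prop :=
  ∃ T : lp (fun _ : Γ => ℝ) 1 →L[ℝ] X, ∃ c : ℝ, 0 < c ∧ ∀ w, c * ‖w‖ ≤ ‖T w‖

/-- `p` is an equivalent norm on `X`. -/
def IsEquivNorm (X : Type u) [NormedAddCommGroup X] [NormedSpace ℝ X] (p : Seminorm ℝ X) : Prop :=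
  ∃ c₁ c₂ : ℝ, 0 < c₁ ∧ ∀ x, c₁ * ‖x‖ ≤ p x ∧ p x ≤ c₂ * ‖x‖

/-- `X` with the norm `p` fails the `(-1)`-ball covering property for `κ`: for every set `A` of
cardinality `κ` some `x` with `p x = 1` has `p (x - a) ≥ p a + 1` for all `a ∈ A`. -/
def FailsBCP (κ : Cardinal.{u}) (X : Type u) [NormedAddCommGroup X] [NormedSpace ℝ X]
    (p : Seminorm ℝ X) : Prop :=
  ∀ A : Set X, #A = κ → ∃ x : X, p x = 1 ∧ ∀ a ∈ A, p a + 1 ≤ p (x - a)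

/-- topological core. -/
def StmIrr : Prop :=
  ∀ (Γ X : Type u) [NormedAddCommGroup X] [NormedSpace ℝ X] (e : Γ → X) (C : ℝ),
    (∀ s : Γ → Bool, ∃ f : X →L[ℝ] ℝ, ‖f‖ ≤ C ∧ ∀ g, f (e g) = if s g then 1 else -1) →
    ∃ K : Set (X →L[ℝ] ℝ), (∀ f ∈ K, ‖f‖ ≤ C) ∧
      (∀ f ∈ K, ∀ g, f (e g) = 1 ∨ f (e g) = -1) ∧
      (∀ s : Γ → Bool, ∃ f ∈ K, ∀ g, f (e g) = if s g then 1 else -1) ∧
      (∀ (a : X), ∀ f ∈ K, ∀ d : ℝ, 0 < d → ∃ F : Finset Γ, ∀ g, g ∉ F → ∀ t : Bool,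
        ∃ h ∈ K, h (e g) = (if t then 1 else -1) ∧ |h a - f a| < d)

/-- the renorming. -/
def StmRen : Prop :=
  ∀ (κ : Cardinal.{u}), ℵ₀ ≤ κ → ∀ (Γ : Type u), #Γ = Order.succ κ →
    ∀ (X : Type u) [NormedAddCommGroup X] [NormedSpace ℝ X], ContainsL1 Γ X →
    ∃ p : Seminorm ℝ X, IsEquivNorm X p ∧ FailsBCP κ X p

end Pool.Agent.N658.SP.Bcp
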