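import Mathlib
import Pool.Agent.N728.SP.Def
import Pool.Agent.H378R2.M1
import Pool.Agent.H437R2.A1
import Pool.Agent.Y957.VK.Fin1

/-!
Project SP (helper728), task ZP: contour integral for the zeta function, coefficients `Λ(n) - 1`.
-/

set_option autoImplicit false

open MeasureTheory Filter Topology Set

namespace Pool.Agent.N658.SP

namespace ZP

open Pool.Agent.H378R2 (Phi)
open Pool.Agent.H378R2.M1

noncomputable section

/-! ### The integral formula for a general Dirichlet series -/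

section general

variable (a : ℕ → ℂ)

lemma term_norm_eq (c t : ℝ) (n : ℕ) :
    ‖LSeries.term a ((c : ℂ) + t * Complex.I) n‖ = ‖LSeries.term a (c : ℂ) n‖ := by
  rw [LSeries.norm_term_eq, LSeries.norm_term_eq]
  simp

/-- the integrand -/
def Fint (X c : ℝ) (n : ℕ) (t : ℝ) : ℂ :=
  LSeries.term a ((c : ℂ) + t * Complex.I) n *
    ((X : ℂ) ^ ((c : ℂ) + t * Complex.I) * MPhi ((c : ℂ) + t * Complex.I))

lemma Fint_norm {X c : ℝ} (hX : 0 < X) (n : ℕ) (t : ℝ) :
    ‖Fint a X c n t‖ = ‖LSeries.term a (c : ℂ) n‖ * X ^ c *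
      ‖MPhi ((c : ℂ) + t * Complex.I)‖ := by
  unfold Fint
  rw [norm_mul, norm_mul, term_norm_eq, Complex.norm_cpow_eq_rpow_re_of_pos hX]
  have : ((c : ℂ) + t * Complex.I).re = c := by simp
  rw [this]
  ring

lemma Fint_continuous {X c : ℝ} (hX : 0 < X) (hc : 0 < c)
    (n : ℕ) : Continuous (Fint a X c n) := by
  unfold Fint
  have hX' : (X : ℂ) ≠ 0 := by exact_mod_cast hX.ne'
  refine Continuous.mul ?_ (Continuous.mul ?_ (MPhi_line_continuous hc))
  · rcases Nat.eq_zero_or_pos n with h | h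
    · subst h
      simp only [LSeries.term_zero]
      exact continuous_const
    · have hn : (n : ℂ) ≠ 0 := by exact_mod_cast h.ne'
      simp_rw [LSeries.term_of_ne_zero h.ne']
      refine Continuous.div continuous_const ?_ ?_
      · exact Continuous.const_cpow (by fun_prop) (Or.inl hn)
      · intro t
        rw [Ne, Complex.cpow_eq_zero_iff]
        tauto
  · exact Continuous.const_cpow (by fun_prop) (Or.inl hX')

lemma Fint_integrable {X c : ℝ} (hX : 0 < X) (hc : 1 ≤ c)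
    (hc2 : c ≤ 2) (n : ℕ) : Integrable (Fint a X c n) := by
  refine Integrable.mono' ((MPhi_line_integrable hc hc2).norm.const_mul
    (‖LSeries.term a (c : ℂ) n‖ * X ^ c))
    (Fint_continuous a hX (by linarith) n).aestronglyMeasurable ?_
  exact Eventually.of_forall fun t => (Fint_norm a hX n t).le

lemma Fint_integral {X c : ℝ} (hX : 0 < X) (hc : 1 ≤ c)
    (hc2 : c ≤ 2) {n : ℕ} (h : n ≠ 0) :
    (1 / (2 * Real.pi) : ℝ) * ∫ t : ℝ, Fint a X c n t =
      ((Phi (n / X) : ℝ) : ℂ) * a n := by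
  have hn0 : (0 : ℝ) < n := by exact_mod_cast Nat.pos_of_ne_zero h
  have hu : 0 < (n : ℝ) / X := by positivity
  have key := Phi_inversion hc hc2 hu
  have e : ∀ t : ℝ, Fint a X c n t = a n *
      ((((n / X : ℝ)) : ℂ) ^ (-((c : ℂ) + t * Complex.I)) * MPhi ((c : ℂ) + t * Complex.I)) := by
    intro t
    unfold Fint
    rw [LSeries.term_of_ne_zero h]
    have hX' : (X : ℂ) ≠ 0 := by exact_mod_cast hX.ne'
    have hn' : (n : ℂ) ≠ 0 := by exact_mod_cast h
    have e1 : (((n / X : ℝ)) : ℂ) ^ (-((c : ℂ) + t * Complex.I)) =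
        (X : ℂ) ^ ((c : ℂ) + t * Complex.I) / (n : ℂ) ^ ((c : ℂ) + t * Complex.I) := by
      have e2 : (((n / X : ℝ)) : ℂ) = ((n : ℝ) : ℂ) * ((X⁻¹ : ℝ) : ℂ) := by
        push_cast; rw [div_eq_mul_inv]
      rw [e2, Complex.mul_cpow_ofReal_nonneg hn0.le (by positivity), Complex.cpow_neg,
        Complex.ofReal_natCast, Complex.ofReal_inv]
      have e3 : ((X : ℂ)⁻¹) ^ (-((c : ℂ) + t * Complex.I)) = (X : ℂ) ^ ((c : ℂ) + t * Complex.I) := by
        rw [Complex.cpow_neg, Complex.inv_cpow, inv_inv]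
        rw [Complex.arg_ofReal_of_nonneg hX.le]
        exact Real.pi_pos.ne
      rw [e3]
      field_simp
    rw [e1]
    ring
  simp_rw [e]
  rw [integral_const_mul]
  push_cast at key ⊢
  rw [key]
  ring

theorem sum_eq {X c : ℝ} (hX : 0 < X) (hc : 1 < c) (hc2 : c ≤ 2)
    (hs : Summable (fun n : ℕ => ‖LSeries.term a (c : ℂ) n‖)) :
    ∑ n ∈ Finset.Icc 1 ⌊3 * X⌋₊, ((Phi (n / X) : ℝ) : ℂ) * a n =
      (1 / (2 * Real.pi) : ℝ) * ∫ t : ℝ, LSeries a ((c : ℂ) + t * Complex.I) *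
      ((X : ℂ) ^ ((c : ℂ) + t * Complex.I) * MPhi ((c : ℂ) + t * Complex.I)) := by
  have hsum : HasSum (fun n => ∫ t : ℝ, Fint a X c n t) (∫ t : ℝ, ∑' n, Fint a X c n t) := by
    refine hasSum_integral_of_summable_integral_norm (Fint_integrable a hX hc.le hc2) ?_
    simp_rw [Fint_norm a hX, integral_const_mul]
    exact (hs.mul_right _).mul_right _
  have h2 : ∫ t : ℝ, ∑' n, Fint a X c n t = ∫ t : ℝ, LSeries a ((c : ℂ) + t * Complex.I) *
      ((X : ℂ) ^ ((c : ℂ) + t * Complex.I) * MPhi ((c : ℂ) + t * Complex.I)) := by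
    congr 1
    funext t
    unfold Fint
    rw [tsum_mul_right]
    rfl
  rw [← h2]
  have h3 := hsum.mul_left (((1 / (2 * Real.pi) : ℝ)) : ℂ)
  rw [← h3.tsum_eq]
  have h4 : ∀ n : ℕ, (((1 / (2 * Real.pi) : ℝ)) : ℂ) * ∫ t : ℝ, Fint a X c n t =
      if n = 0 then 0 else ((Phi (n / X) : ℝ) : ℂ) * a n := by
    intro n
    split_ifs with h
    · subst h
      unfold Fint
      simp
    · exact Fint_integral a hX hc.le hc2 h
  simp_rw [h4]
  rw [tsum_eq_sum (s := Finset.Icc 1 ⌊3 * X⌋₊)]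
  · refine Finset.sum_congr rfl fun n hn => ?_
    rw [Finset.mem_Icc] at hn
    rw [if_neg (by omega)]
  · intro n hn
    rw [Finset.mem_Icc, not_and_or] at hn
    split_ifs with h
    · rfl
    · have h0 : Phi (n / X) = 0 := by
        rcases hn with hn | hn
        · omega
        · have h3X : 3 * X < n := by
            rw [not_le] at hn
            exact (Nat.floor_lt (by positivity)).mp hn
          rw [Phi_zero_right]
          rw [le_div_iff₀ hX]
          have := Real.exp_one_lt_d9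
          nlinarith
      rw [h0]
      simp

end general

/-! ### Shifting the contour -/

/-- the integrand of the contour integral -/
def gI (G : ℂ → ℂ) (X : ℝ) (s : ℂ) : ℂ := G s * ((X : ℂ) ^ s * MPhi s)

lemma gI_differentiableAt {G : ℂ → ℂ} {X : ℝ} (hX : 0 < X) {s : ℂ} (hs : s ≠ 0)
    (hG : DifferentiableAt ℂ G s) : DifferentiableAt ℂ (gI G X) s := by
  have hX' : (X : ℂ) ≠ 0 := by exact_mod_cast hX.ne'
  unfold gI
  refine hG.mul (DifferentiableAt.mul ?_ (MPhi_differentiableAt hs))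
  exact DifferentiableAt.const_cpow differentiableAt_id (Or.inl hX')

lemma gI_norm {G : ℂ → ℂ} {X : ℝ} (hX : 0 < X) {s : ℂ} (h2 : s.re ≤ 2) :
    ‖gI G X s‖ ≤ ‖G s‖ * (X ^ s.re * (16 / ‖s‖ ^ 2)) := by
  unfold gI
  rw [norm_mul, norm_mul, Complex.norm_cpow_eq_rpow_re_of_pos hX]
  have := MPhi_bound h2
  gcongr

theorem contour (a : ℕ → ℂ) (G : ℂ → ℂ) {X c δ T M A : ℝ}
    (hX : 1 ≤ X) (hc : 1 < c) (hδ : 0 < δ) (hδ4 : δ ≤ 1 / 4) (hcδ : c ≤ 1 + δ) (hXc : X ^ c ≤ 3 * X)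
    (hT : 1 ≤ T) (hM : 0 ≤ M)
    (hs : Summable (fun n : ℕ => ‖LSeries.term a (c : ℂ) n‖))
    (hA : ∑' n : ℕ, ‖LSeries.term a (c : ℂ) n‖ ≤ A)
    (hGa : ∀ s : ℂ, 1 < s.re → LSeries a s = G s)
    (hGd : ∀ s : ℂ, 1 < s.re → DifferentiableAt ℂ G s)
    (hL : ∀ s : ℂ, |s.re - 1| ≤ δ → |s.im| ≤ T → DifferentiableAt ℂ G s ∧ ‖G s‖ ≤ M) :
    ‖∑ n ∈ Finset.Icc 1 ⌊3 * X⌋₊, ((Phi (n / X) : ℝ) : ℂ) * a n‖ ≤
      16 * (X ^ (1 - δ) * M + X * M / T ^ 2 + X * A / T) := by
  have hX0 : 0 < X := by linarith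
  have hc2 : c ≤ 2 := by linarith
  have hT0 : 0 < T := by linarith
  have hpi : 3 < Real.pi := Real.pi_gt_three
  have hpi4 : Real.pi < 4 := Real.pi_lt_four
  have hG : ∀ s : ℂ, |s.re - 1| ≤ δ → |s.im| ≤ T → ‖G s‖ ≤ M := fun s h1 h2 => (hL s h1 h2).2
  have hA0 : 0 ≤ A := le_trans (tsum_nonneg fun n => norm_nonneg _) hA
  rw [sum_eq a hX0 hc hc2 hs]
  have hrec : ∀ t : ℝ, ((c : ℂ) + t * Complex.I).re = c := by intro t; simp
  have hGn : ∀ t : ℝ, ‖G ((c : ℂ) + t * Complex.I)‖ ≤ A := by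
    intro t
    rw [← hGa _ (by rw [hrec]; exact hc)]
    unfold LSeries
    refine le_trans ?_ hA
    exact tsum_of_norm_bounded hs.hasSum fun n => (term_norm_eq a c t n).le
  set g : ℝ → ℂ := fun t => gI G X ((c : ℂ) + t * Complex.I) with hg
  have hgeq : (∫ t : ℝ, LSeries a ((c : ℂ) + t * Complex.I) *
      ((X : ℂ) ^ ((c : ℂ) + t * Complex.I) * MPhi ((c : ℂ) + t * Complex.I))) = ∫ t, g t := by
    congr 1
    funext t
    rw [hGa _ (by rw [hrec]; exact hc)]
    rfl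
  rw [hgeq]
  have hgcont : Continuous g := by
    rw [continuous_iff_continuousAt]
    intro t
    have h1 := (gI_differentiableAt hX0 (line_ne_zero (c := c) (t := t) (by linarith))
      (hGd _ (by rw [hrec]; exact hc))).continuousAt
    exact ContinuousAt.comp (f := fun t : ℝ => (c : ℂ) + t * Complex.I) (g := gI G X) h1
      (by fun_prop)
  have hgb : ∀ t : ℝ, ‖g t‖ ≤ A * (X ^ c * (16 / ‖(c : ℂ) + t * Complex.I‖ ^ 2)) := by
    intro t
    refine (gI_norm hX0 (by simpa using hc2)).trans ?_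
    have h1 := hGn t
    rw [hrec]
    gcongr
  have hgi : Integrable g := by
    refine Integrable.mono' (integrable_inv_one_add_sq.const_mul (A * X ^ c * 16))
      hgcont.aestronglyMeasurable ?_
    refine Eventually.of_forall fun t => (hgb t).trans ?_
    have h1 := norm_sq_lower (c := c) (t := t) hc.le
    calc A * (X ^ c * (16 / ‖(c : ℂ) + t * Complex.I‖ ^ 2)) ≤ A * (X ^ c * (16 / (1 + t ^ 2))) := by
          gcongr
      _ = _ := by rw [div_eq_mul_inv]; ring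
  have htail : ‖∫ t, g t‖ ≤ ‖∫ t in (-T)..T, g t‖ + 2 * (A * X ^ c * 16) / T := by
    refine tail_bound hT0 hgi ?_
    intro t ht
    refine (hgb t).trans ?_
    have h0 : 0 < t ^ 2 := by
      have : 0 < |t| := by linarith
      exact sq_pos_of_ne_zero (abs_pos.mp this)
    have h1 : t ^ 2 ≤ ‖(c : ℂ) + t * Complex.I‖ ^ 2 := by
      have := norm_sq_lower (c := c) (t := t) hc.le
      linarith
    calc A * (X ^ c * (16 / ‖(c : ℂ) + t * Complex.I‖ ^ 2)) ≤ A * (X ^ c * (16 / t ^ 2)) := by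
          gcongr
      _ = _ := by rw [div_eq_mul_inv]; ring
  -- the rectangle
  have hrect := Complex.integral_boundary_rect_eq_zero_of_differentiableOn (gI G X)
    (⟨1 - δ, -T⟩ : ℂ) (⟨c, T⟩ : ℂ) (by
      intro s hs
      rw [Complex.mem_reProdIm] at hs
      simp only at hs
      obtain ⟨h1, h2⟩ := hs
      rw [uIcc_of_le (by linarith)] at h1 h2
      have h3 : |s.re - 1| ≤ δ := by
        rw [abs_le]; constructor <;> linarith [h1.1, h1.2]
      have h4 : |s.im| ≤ T := abs_le.mpr ⟨h2.1, h2.2⟩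
      have h5 : s ≠ 0 := ne_zero_of_re (by linarith [h1.1])
      exact (gI_differentiableAt hX0 h5 (hL s h3 h4).1).differentiableWithinAt)
  simp only at hrect
  have hv : ‖∫ y in (-T)..T, gI G X (((1 - δ : ℝ) : ℂ) + y * Complex.I)‖ ≤
      M * X ^ (1 - δ) * 32 * Real.pi := by
    have hb : ∀ y ∈ Ioc (-T) T, ‖gI G X (((1 - δ : ℝ) : ℂ) + y * Complex.I)‖ ≤
        M * X ^ (1 - δ) * 32 * (1 + y ^ 2)⁻¹ := by
      intro y hy
      have hre : (((1 - δ : ℝ) : ℂ) + y * Complex.I).re = 1 - δ := by simp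
      have him : (((1 - δ : ℝ) : ℂ) + y * Complex.I).im = y := by simp
      refine (gI_norm hX0 (by rw [hre]; linarith)).trans ?_
      have h1 := hG (((1 - δ : ℝ) : ℂ) + y * Complex.I)
        (by rw [hre]; rw [abs_of_nonpos (by linarith)]; linarith)
        (by rw [him]; exact abs_le.mpr ⟨hy.1.le, hy.2⟩)
      rw [hre]
      have h2 := norm_sq_lower' (c := 1 - δ) (t := y) (by linarith)
      calc ‖G (((1 - δ : ℝ) : ℂ) + y * Complex.I)‖ *
            (X ^ (1 - δ) * (16 / ‖((1 - δ : ℝ) : ℂ) + y * Complex.I‖ ^ 2))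
          ≤ M * (X ^ (1 - δ) * (16 / ((1 + y ^ 2) / 2))) := by
            gcongr
        _ = _ := by rw [div_div_eq_mul_div, div_eq_mul_inv]; ring
    rw [intervalIntegral.integral_of_le (by linarith)]
    calc ‖∫ y in Ioc (-T) T, gI G X (((1 - δ : ℝ) : ℂ) + y * Complex.I)‖
        ≤ ∫ y in Ioc (-T) T, M * X ^ (1 - δ) * 32 * (1 + y ^ 2)⁻¹ := by
          refine norm_integral_le_of_norm_le
            ((integrable_inv_one_add_sq.const_mul _).integrableOn) ?_
          exact (ae_restrict_iff' measurableSet_Ioc).mpr (Eventually.of_forall hb)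
      _ ≤ ∫ y, M * X ^ (1 - δ) * 32 * (1 + y ^ 2)⁻¹ := by
          refine setIntegral_le_integral (integrable_inv_one_add_sq.const_mul _) ?_
          exact Eventually.of_forall fun y => by positivity
      _ = _ := by rw [integral_const_mul, integral_univ_inv_one_add_sq]
  have hh : ∀ T' : ℝ, |T'| = T →
      ‖∫ x in (1 - δ)..c, gI G X (x + (T' : ℂ) * Complex.I)‖ ≤ M * (3 * X) * 16 / T ^ 2 * (1 / 2) := by
    intro T' hT'
    have hb : ∀ x ∈ Set.uIoc (1 - δ) c, ‖gI G X (x + (T' : ℂ) * Complex.I)‖ ≤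
        M * (3 * X) * 16 / T ^ 2 := by
      intro x hx
      rw [uIoc_of_le (by linarith)] at hx
      have hre : ((x : ℂ) + (T' : ℂ) * Complex.I).re = x := by simp
      have him : ((x : ℂ) + (T' : ℂ) * Complex.I).im = T' := by simp
      refine (gI_norm hX0 (by rw [hre]; linarith [hx.2])).trans ?_
      have h1 := hG ((x : ℂ) + (T' : ℂ) * Complex.I)
        (by rw [hre, abs_le]; constructor <;> linarith [hx.1, hx.2])
        (by rw [him, hT'])
      rw [hre]
      have h2 : T ^ 2 ≤ ‖(x : ℂ) + (T' : ℂ) * Complex.I‖ ^ 2 := by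
        rw [Complex.sq_norm, Complex.normSq_apply, hre, him, ← hT', sq_abs]
        nlinarith [sq_nonneg x]
      have h3 : X ^ x ≤ 3 * X := (Real.rpow_le_rpow_of_exponent_le hX hx.2).trans hXc
      calc ‖G ((x : ℂ) + (T' : ℂ) * Complex.I)‖ *
            (X ^ x * (16 / ‖(x : ℂ) + (T' : ℂ) * Complex.I‖ ^ 2))
          ≤ M * (3 * X * (16 / T ^ 2)) := by gcongr
        _ = _ := by ring
    refine (intervalIntegral.norm_integral_le_of_norm_le_const hb).trans ?_
    have : |c - (1 - δ)| ≤ 1 / 2 := by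
      rw [abs_of_nonneg (by linarith)]; linarith
    gcongr
  have hmain : ‖∫ t in (-T)..T, g t‖ ≤ M * X ^ (1 - δ) * 32 * Real.pi +
      M * (3 * X) * 16 / T ^ 2 := by
    have h1 := hh T (abs_of_pos hT0)
    have h2 := hh (-T) (by rw [abs_neg]; exact abs_of_pos hT0)
    have e : Complex.I • (∫ t in (-T)..T, g t) =
        (∫ x in (1 - δ)..c, gI G X (x + (T : ℂ) * Complex.I)) -
        (∫ x in (1 - δ)..c, gI G X (x + ((-T : ℝ) : ℂ) * Complex.I)) +
        Complex.I • (∫ y in (-T)..T, gI G X (((1 - δ : ℝ) : ℂ) + y * Complex.I)) := by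
      have h3 := hrect
      rw [hg]
      linear_combination h3
    have e2 : ‖∫ t in (-T)..T, g t‖ = ‖Complex.I • (∫ t in (-T)..T, g t)‖ := by
      rw [norm_smul, Complex.norm_I, one_mul]
    rw [e2, e]
    refine (norm_add_le _ _).trans ?_
    have h4 := norm_sub_le (∫ x in (1 - δ)..c, gI G X (x + (T : ℂ) * Complex.I))
      (∫ x in (1 - δ)..c, gI G X (x + ((-T : ℝ) : ℂ) * Complex.I))
    rw [norm_smul, Complex.norm_I, one_mul]
    linarith
  have hfin : ‖∫ t, g t‖ ≤ M * X ^ (1 - δ) * 32 * Real.pi +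
      M * (3 * X) * 16 / T ^ 2 + 2 * (A * (3 * X) * 16) / T := by
    refine htail.trans ?_
    have : 2 * (A * X ^ c * 16) / T ≤ 2 * (A * (3 * X) * 16) / T := by gcongr
    linarith
  rw [norm_mul, Complex.norm_real, Real.norm_of_nonneg (by positivity)]
  calc 1 / (2 * Real.pi) * ‖∫ t, g t‖ ≤ 1 / (2 * Real.pi) * (M * X ^ (1 - δ) * 32 * Real.pi +
      M * (3 * X) * 16 / T ^ 2 + 2 * (A * (3 * X) * 16) / T) := by gcongr
    _ = 16 * (X ^ (1 - δ) * M) + (3 / Real.pi) * (8 * (X * M / T ^ 2)) +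
        (3 / Real.pi) * (16 * (X * A / T)) := by
        field_simp
        ring
    _ ≤ 16 * (X ^ (1 - δ) * M) + 1 * (16 * (X * M / T ^ 2)) + 1 * (16 * (X * A / T)) := by
        have h3 : 3 / Real.pi ≤ 1 := by
          rw [div_le_one (by positivity)]; exact hpi.le
        have h4 : 0 ≤ X * M / T ^ 2 := by positivity
        have h5 : 0 ≤ X * A / T := by positivity
        have h6 : 8 * (X * M / T ^ 2) ≤ 16 * (X * M / T ^ 2) := by linarith
        gcongr
    _ = _ := by ring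

/-! ### The function `-ζ'/ζ - ζ` -/

/-- the coefficients -/
def az (n : ℕ) : ℂ := ((ArithmeticFunction.vonMangoldt n : ℝ) : ℂ) - 1

/-- `-ζ'/ζ - ζ`, holomorphic at `1` -/
def Gz (s : ℂ) : ℂ := -(deriv riemannZeta₁ s / riemannZeta₁ s) - riemannZeta₀ s

lemma az_eq : az = (fun n : ℕ => ((ArithmeticFunction.vonMangoldt n : ℝ) : ℂ)) - 1 := rfl

lemma LS_az {s : ℂ} (hs : 1 < s.re) : LSeriesSummable az s ∧ LSeries az s = Gz s := by
  have h1 : LSeriesSummable (fun n : ℕ => ((ArithmeticFunction.vonMangoldt n : ℝ) : ℂ)) s :=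
    ArithmeticFunction.LSeriesSummable_vonMangoldt hs
  have h2 : LSeriesSummable (1 : ℕ → ℂ) s := LSeriesSummable_one_iff.2 hs
  refine ⟨by rw [az_eq]; exact h1.sub h2, ?_⟩
  have h3 : LSeries (fun n : ℕ => ((ArithmeticFunction.vonMangoldt n : ℝ) : ℂ)) s =
      -deriv riemannZeta s / riemannZeta s :=
    ArithmeticFunction.LSeries_vonMangoldt_eq_deriv_riemannZeta_div hs
  have h4 : LSeries (1 : ℕ → ℂ) s = riemannZeta s := LSeries_one_eq_riemannZeta hs
  rw [az_eq, LSeries_sub h1 h2, h3, h4]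
  have hs1 : s ≠ 1 := by
    rintro rfl
    simp at hs
  have hsub : s - 1 ≠ 0 := sub_ne_zero.2 hs1
  have hz1 : riemannZeta₁ s ≠ 0 := Pool.Agent.Y569.VK.zeta1_ne hs.le
  unfold Gz
  rw [deriv_riemannZeta_eq_neg_inv_sub_sq_mul_add hs1]
  have e1 : riemannZeta s = (s - 1)⁻¹ * riemannZeta₁ s := riemannZeta_eq_inv_sub_mul hs1
  have e2 : riemannZeta s = (s - 1)⁻¹ + riemannZeta₀ s := riemannZeta_eq_inv_sub_add hs1
  have e3 : -(-((s - 1)⁻¹) ^ 2 * riemannZeta₁ s + (s - 1)⁻¹ * deriv riemannZeta₁ s) / riemannZeta s =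
      (s - 1)⁻¹ - deriv riemannZeta₁ s / riemannZeta₁ s := by
    rw [e1]
    field_simp
    ring
  rw [e3, e2]
  ring

lemma Gz_diff {s : ℂ} (h : riemannZeta₁ s ≠ 0) : DifferentiableAt ℂ Gz s := by
  unfold Gz
  have hd : DifferentiableAt ℂ (deriv riemannZeta₁) s :=
    (differentiable_riemannZeta₁.analyticAt s).deriv.differentiableAt
  exact ((hd.div (differentiable_riemannZeta₁ s) h).neg).sub (differentiable_riemannZeta₀ s)

lemma z1_deriv_le {s : ℂ} (hs : 3 / 4 ≤ s.re) :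
    ‖deriv riemannZeta₁ s‖ ≤ 12 * (‖s‖ + 5 / 4) ^ 2 := by
  have h := Complex.norm_deriv_le_of_forall_mem_sphere_norm_le (c := s) (R := 1 / 4)
    (C := 3 * (‖s‖ + 5 / 4) ^ 2) (f := riemannZeta₁) (by norm_num)
    differentiable_riemannZeta₁.diffContOnCl ?_
  · refine h.trans (le_of_eq ?_)
    ring
  · intro z hz
    rw [mem_sphere_iff_norm] at hz
    have h1 : |(z - s).re| ≤ 1 / 4 := (Complex.abs_re_le_norm _).trans hz.le
    have h2 : ‖z‖ ≤ ‖s‖ + 1 / 4 := by
      have := norm_add_le (z - s) s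
      rw [sub_add_cancel, hz] at this
      linarith
    have h3 : 1 / 2 ≤ z.re := by
      rw [Complex.sub_re] at h1
      have := (abs_le.1 h1).1
      linarith
    refine (Pool.Agent.H437R2.z1_norm_le h3).trans ?_
    have h4 : ‖z‖ + 1 ≤ ‖s‖ + 5 / 4 := by linarith
    gcongr

lemma near_one : ∃ r B : ℝ, 0 < r ∧ r ≤ 1 ∧ 0 ≤ B ∧ ∀ s : ℂ, ‖s - 1‖ ≤ r →
    riemannZeta₁ s ≠ 0 ∧ ‖Gz s‖ ≤ B := by
  obtain ⟨ε, hε, hb⟩ := Metric.eventually_nhds_iff_ball.1 riemannZeta₁_ne_zero_of_near_one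
  have hr : 0 < min 1 (ε / 2) := lt_min one_pos (by linarith)
  have hne : ∀ s : ℂ, ‖s - 1‖ ≤ min 1 (ε / 2) → riemannZeta₁ s ≠ 0 := by
    intro s hs
    apply hb
    rw [mem_ball_iff_norm]
    have := hs.trans (min_le_right _ _)
    linarith
  have hc : ContinuousOn Gz (Metric.closedBall (1 : ℂ) (min 1 (ε / 2))) := by
    intro s hs
    rw [mem_closedBall_iff_norm] at hs
    exact (Gz_diff (hne s hs)).continuousAt.continuousWithinAt
  obtain ⟨B, hB⟩ := (isCompact_closedBall (1 : ℂ) (min 1 (ε / 2))).exists_bound_of_continuousOn hc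
  refine ⟨min 1 (ε / 2), max B 0, hr, min_le_left _ _, le_max_right _ _, fun s hs =>
    ⟨hne s hs, (hB s ?_).trans (le_max_left _ _)⟩⟩
  rw [mem_closedBall_iff_norm]
  exact hs

theorem region : ∃ (C T₁ : ℝ) (K : ℕ), 1 ≤ C ∧ ∀ (T : ℝ) (s : ℂ), T₁ ≤ T → |s.im| ≤ T →
    |s.re - 1| ≤ 1 / Real.log T → DifferentiableAt ℂ Gz s ∧ ‖Gz s‖ ≤ C * T * Real.log T ^ K := by
  obtain ⟨δ, K, T₀, hδ0, hδ1, hK, hT₀, hinv⟩ := Pool.Agent.Y957.VK.inv_all
  obtain ⟨r, B, hr0, hr1, hB0, hnear⟩ := near_one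
  refine ⟨B + 156 / r + 1, max T₀ (Real.exp 4), ⌈K⌉₊, ?_, ?_⟩
  · have : 0 < 156 / r := by positivity
    linarith
  intro T s hT him hre
  have hT0 : T₀ ≤ T := (le_max_left _ _).trans hT
  have hT4 : Real.exp 4 ≤ T := (le_max_right _ _).trans hT
  have hTpos : 0 < T := (Real.exp_pos _).trans_le hT4
  have hT5 : (5 : ℝ) ≤ T := by
    have := Real.add_one_le_exp (4 : ℝ)
    linarith
  have hlog4 : 4 ≤ Real.log T := by
    rw [Real.le_log_iff_exp_le hTpos]; exact hT4
  have hlog0 : 0 < Real.log T := by linarith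
  have hq : 1 / Real.log T ≤ 1 / 4 := one_div_le_one_div_of_le (by norm_num) hlog4
  have hre' := abs_le.1 hre
  have hpow : 1 / Real.log T ≤ (Real.log T) ^ (δ - 1) := by
    rw [one_div, ← Real.rpow_neg_one]
    exact Real.rpow_le_rpow_of_exponent_le (by linarith) (by linarith)
  obtain ⟨h1, h2⟩ := hinv T s hT0 him (by linarith) (by linarith)
  refine ⟨Gz_diff h1, ?_⟩
  have hLK : (Real.log T) ^ K ≤ Real.log T ^ ⌈K⌉₊ := by
    rw [← Real.rpow_natCast]
    exact Real.rpow_le_rpow_of_exponent_le (by linarith) (Nat.le_ceil K)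
  have hL1 : 1 ≤ Real.log T ^ ⌈K⌉₊ := one_le_pow₀ (by linarith)
  have h156 : 0 < 156 / r := by positivity
  rcases le_or_gt ‖s - 1‖ r with hs | hs
  · refine (hnear s hs).2.trans ?_
    calc B ≤ (B + 156 / r + 1) * 1 * 1 := by linarith
      _ ≤ (B + 156 / r + 1) * T * Real.log T ^ ⌈K⌉₊ := by
        gcongr
        linarith
  · set d : ℝ := ‖s - 1‖ with hd
    have hd0 : 0 < d := hr0.trans hs
    have hdT : d ≤ 2 * T := by
      have h3 := Complex.norm_le_abs_re_add_abs_im (s - 1)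
      simp only [Complex.sub_re, Complex.sub_im, Complex.one_re, Complex.one_im, sub_zero] at h3
      linarith
    have hsd : ‖s‖ ≤ d + 1 := by
      have := norm_add_le (s - 1) 1
      rw [sub_add_cancel, norm_one] at this
      exact this
    have hsub : s - 1 ≠ 0 := norm_pos_iff.1 hd0
    have hkey : (d + 9 / 4) ^ 2 / d ≤ 39 * T / (4 * r) := by
      rw [div_le_div_iff₀ hd0 (by positivity)]
      have e1 : (d + 9 / 4) * r ≤ (13 / 4) * d := by nlinarith
      have e2 : d + 9 / 4 ≤ 3 * T := by linarith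
      calc (d + 9 / 4) ^ 2 * (4 * r) = 4 * (d + 9 / 4) * ((d + 9 / 4) * r) := by ring
        _ ≤ 4 * (3 * T) * ((13 / 4) * d) := by gcongr
        _ = 39 * T * d := by ring
    have b1 : ‖deriv riemannZeta₁ s / riemannZeta₁ s‖ ≤ 117 / r * T * Real.log T ^ ⌈K⌉₊ := by
      have e1 : deriv riemannZeta₁ s / riemannZeta₁ s =
          deriv riemannZeta₁ s * ((s - 1) / riemannZeta₁ s) / (s - 1) := by
        field_simp
      rw [e1, norm_div, norm_mul]
      calc ‖deriv riemannZeta₁ s‖ * ‖(s - 1) / riemannZeta₁ s‖ / ‖s - 1‖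
          ≤ (12 * (‖s‖ + 5 / 4) ^ 2) * Real.log T ^ ⌈K⌉₊ / ‖s - 1‖ := by
            gcongr
            · exact z1_deriv_le (by linarith)
            · exact h2.trans hLK
        _ ≤ (12 * (d + 9 / 4) ^ 2) * Real.log T ^ ⌈K⌉₊ / d := by
            have : ‖s‖ + 5 / 4 ≤ d + 9 / 4 := by linarith
            gcongr
        _ = 12 * ((d + 9 / 4) ^ 2 / d) * Real.log T ^ ⌈K⌉₊ := by ring
        _ ≤ 12 * (39 * T / (4 * r)) * Real.log T ^ ⌈K⌉₊ := by gcongr
        _ = 117 / r * T * Real.log T ^ ⌈K⌉₊ := by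
            field_simp
            ring
    have b2 : ‖riemannZeta₀ s‖ ≤ 39 / r * T * Real.log T ^ ⌈K⌉₊ := by
      have e1 : riemannZeta₀ s = (riemannZeta₁ s - 1) / (s - 1) := by
        unfold riemannZeta₁
        field_simp
        ring
      have e2 : ‖riemannZeta₁ s - 1‖ ≤ 4 * (d + 9 / 4) ^ 2 := by
        have e3 := Pool.Agent.H437R2.z1_norm_le (s := s) (by linarith)
        have e4 := norm_sub_le (riemannZeta₁ s) 1
        rw [norm_one] at e4
        have e5 : (‖s‖ + 1) ^ 2 ≤ (d + 2) ^ 2 := by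
          have := norm_nonneg s
          apply pow_le_pow_left₀ <;> linarith
        nlinarith
      rw [e1, norm_div]
      calc ‖riemannZeta₁ s - 1‖ / ‖s - 1‖ ≤ 4 * (d + 9 / 4) ^ 2 / d := by gcongr
        _ = 4 * ((d + 9 / 4) ^ 2 / d) * 1 := by ring
        _ ≤ 4 * (39 * T / (4 * r)) * Real.log T ^ ⌈K⌉₊ := by gcongr
        _ = 39 / r * T * Real.log T ^ ⌈K⌉₊ := by
            field_simp
    have b3 : ‖Gz s‖ ≤ ‖deriv riemannZeta₁ s / riemannZeta₁ s‖ + ‖riemannZeta₀ s‖ := by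
      unfold Gz
      refine (norm_sub_le _ _).trans ?_
      rw [norm_neg]
    calc ‖Gz s‖ ≤ 117 / r * T * Real.log T ^ ⌈K⌉₊ + 39 / r * T * Real.log T ^ ⌈K⌉₊ := by linarith
      _ = 156 / r * T * Real.log T ^ ⌈K⌉₊ := by ring
      _ ≤ (B + 156 / r + 1) * T * Real.log T ^ ⌈K⌉₊ := by
        gcongr
        linarith

/-- the coefficient sum -/
theorem az_sum : ∃ C : ℝ, 1 ≤ C ∧ ∀ c : ℝ, 1 < c → c ≤ 2 →
    Summable (fun n : ℕ => ‖LSeries.term az (c : ℂ) n‖) ∧
      ∑' n : ℕ, ‖LSeries.term az (c : ℂ) n‖ ≤ C / (c - 1) ^ 2 := by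
  obtain ⟨C, hC1, hC⟩ := vM_sum_bound
  obtain ⟨Z, hZ1, hZ⟩ := Pool.Agent.Erdos456.zeta_bound
  refine ⟨C + Z, by linarith, fun c hc hc2 => ?_⟩
  have hs1 := vM_summable hc
  have hs2 : Summable (fun n : ℕ => 1 / (n : ℝ) ^ c) := Real.summable_one_div_nat_rpow.mpr hc
  have hb : ∀ n : ℕ, ‖LSeries.term az (c : ℂ) n‖ ≤
      ArithmeticFunction.vonMangoldt n * (n : ℝ) ^ (-c) + 1 / (n : ℝ) ^ c := by
    intro n
    rcases Nat.eq_zero_or_pos n with h | h
    · subst h
      simp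
      positivity
    · rw [LSeries.norm_term_eq, if_neg h.ne', Complex.ofReal_re, Real.rpow_neg (Nat.cast_nonneg n),
        ← div_eq_mul_inv, ← add_div]
      gcongr
      unfold az
      refine (norm_sub_le _ _).trans ?_
      rw [norm_one, Complex.norm_real, Real.norm_of_nonneg ArithmeticFunction.vonMangoldt_nonneg]
  have hs : Summable (fun n : ℕ => ‖LSeries.term az (c : ℂ) n‖) :=
    Summable.of_nonneg_of_le (fun n => norm_nonneg _) hb (hs1.add hs2)
  refine ⟨hs, ?_⟩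
  have hz : ∑' n : ℕ, 1 / (n : ℝ) ^ c ≤ Z / (c - 1) := by
    have h1 := hZ c hc hc2
    have h2 : riemannZeta ((c : ℝ) : ℂ) = ((∑' n : ℕ, 1 / (n : ℝ) ^ c : ℝ) : ℂ) := by
      rw [zeta_eq_tsum_one_div_nat_cpow (by simpa using hc)]
      rw [Complex.ofReal_tsum]
      congr 1
      funext n
      push_cast
      rw [Complex.ofReal_cpow (Nat.cast_nonneg n)]
      push_cast
      rfl
    rw [h2, Complex.norm_real] at h1
    exact (le_abs_self _).trans h1
  have hc0 : 0 < c - 1 := by linarith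
  calc ∑' n : ℕ, ‖LSeries.term az (c : ℂ) n‖
      ≤ ∑' n : ℕ, (ArithmeticFunction.vonMangoldt n * (n : ℝ) ^ (-c) + 1 / (n : ℝ) ^ c) :=
        hs.tsum_le_tsum hb (hs1.add hs2)
    _ = (∑' n : ℕ, ArithmeticFunction.vonMangoldt n * (n : ℝ) ^ (-c)) + ∑' n : ℕ, 1 / (n : ℝ) ^ c :=
        hs1.tsum_add hs2
    _ ≤ C / (c - 1) ^ 2 + Z / (c - 1) := add_le_add (hC c hc hc2) hz
    _ ≤ C / (c - 1) ^ 2 + Z / (c - 1) ^ 2 := by
        have : Z / (c - 1) ≤ Z / (c - 1) ^ 2 := by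
          gcongr
          nlinarith
        linarith
    _ = _ := by ring

end

end ZP

open ZP Pool.Agent.N728.SP Pool.Agent.H378R2.M1 in
/-- **ZP**: contour integral for the zeta function -/
theorem t_ZP : S_ZP := by
  obtain ⟨C0, T₁, K, hC0, hreg⟩ := region
  obtain ⟨C1, hC1, hsum⟩ := az_sum
  obtain ⟨a1, ha1⟩ := exp_dominates (48 * C0 * 2 ^ K) K
  obtain ⟨a2, ha2⟩ := exp_dominates (48 * C1) 84
  refine ⟨max (max a1 a2) (max 2 T₁), fun l hl x hx1 hx2 => ?_⟩
  have hla1 : a1 ≤ l := ((le_max_left _ _).trans (le_max_left _ _)).trans hl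
  have hla2 : a2 ≤ l := ((le_max_right _ _).trans (le_max_left _ _)).trans hl
  have hl2 : 2 ≤ l := ((le_max_left _ _).trans (le_max_right _ _)).trans hl
  have hlT : T₁ ≤ l := ((le_max_right _ _).trans (le_max_right _ _)).trans hl
  have hd1 := ha1 l hla1
  have hd2 := ha2 l hla2
  have hl0 : 0 < l := by linarith
  have hx0 : 0 < x := (Real.exp_pos _).trans_le hx1
  have hlogx1 : l ^ 22 / 2 ≤ Real.log x := by
    rw [Real.le_log_iff_exp_le hx0]; exact hx1
  have hlogx2 : Real.log x ≤ l ^ 42 := by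
    rw [Real.log_le_iff_le_exp hx0]; exact hx2
  have hl20 : (2 : ℝ) ^ 20 ≤ l ^ 20 := by gcongr
  have hl21 : 2 ^ 20 * l ≤ l ^ 21 := by
    calc 2 ^ 20 * l ≤ l ^ 20 * l := by gcongr
      _ = l ^ 21 := by ring
  have hl22 : 2 ^ 20 * l ≤ l ^ 22 := by
    calc 2 ^ 20 * l ≤ l ^ 21 * 1 := by linarith
      _ ≤ l ^ 21 * l := by gcongr; linarith
      _ = l ^ 22 := by ring
  have hlogx0 : 2 * l ≤ Real.log x := by nlinarith
  have hlogpos : 0 < Real.log x := by linarith
  set c : ℝ := 1 + 1 / Real.log x with hc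
  have hc1 : 1 < c := by
    have : 0 < 1 / Real.log x := by positivity
    linarith
  have hΔ : 1 / Real.log x ≤ 1 / (2 * l) := one_div_le_one_div_of_le (by positivity) hlogx0
  have hΔ4 : 1 / (2 * l) ≤ 1 / 4 := one_div_le_one_div_of_le (by norm_num) (by linarith)
  have hx1' : 1 ≤ x := by
    refine le_trans ?_ hx1
    exact Real.one_le_exp (by positivity)
  have hXc : x ^ c ≤ 3 * x := by
    rw [hc, Real.rpow_add hx0, Real.rpow_one]
    have h1 : x ^ (1 / Real.log x) = Real.exp 1 := by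
      rw [Real.rpow_def_of_pos hx0, mul_one_div_cancel hlogpos.ne']
    rw [h1]
    have := Real.exp_one_lt_d9
    nlinarith
  obtain ⟨hs, hA⟩ := hsum c hc1 (by linarith)
  have hA' : ∑' n : ℕ, ‖LSeries.term az (c : ℂ) n‖ ≤ C1 * l ^ 84 := by
    refine hA.trans ?_
    have h1 : c - 1 = 1 / Real.log x := by rw [hc]; ring
    rw [h1]
    have h2 : C1 / (1 / Real.log x) ^ 2 = C1 * Real.log x ^ 2 := by
      field_simp
    rw [h2]
    have h3 : Real.log x ^ 2 ≤ (l ^ 42) ^ 2 := by gcongr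
    calc C1 * Real.log x ^ 2 ≤ C1 * (l ^ 42) ^ 2 := by gcongr
      _ = C1 * l ^ 84 := by ring
  have hTlog : Real.log (Real.exp (2 * l)) = 2 * l := Real.log_exp _
  have hTl : l ≤ Real.exp (2 * l) := by
    have := Real.add_one_le_exp (2 * l)
    linarith
  have hcont := contour az Gz (X := x) (c := c) (δ := 1 / (2 * l)) (T := Real.exp (2 * l))
    (M := C0 * Real.exp (2 * l) * (2 * l) ^ K) (A := C1 * l ^ 84) hx1' hc1 (by positivity) hΔ4
    (by rw [hc]; linarith) hXc (Real.one_le_exp (by positivity)) (by positivity) hs hA'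
    (fun s h1 => (LS_az h1).2)
    (fun s h1 => Gz_diff (Pool.Agent.Y569.VK.zeta1_ne h1.le)) (by
      intro s h1 h2
      have := hreg (Real.exp (2 * l)) s (hlT.trans hTl) h2 (by rw [hTlog]; exact h1)
      rwa [hTlog] at this)
  have hPP : PP (fun n => ((ArithmeticFunction.vonMangoldt n : ℝ) : ℂ) - 1) x =
      ∑ n ∈ Finset.Icc 1 ⌊3 * x⌋₊, ((Pool.Agent.H378R2.Phi (n / x) : ℝ) : ℂ) * az n := rfl
  rw [hPP]
  refine hcont.trans ?_
  have hXδ : x ^ (1 - 1 / (2 * l)) = x * Real.exp (-(Real.log x / (2 * l))) := by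
    rw [sub_eq_add_neg, Real.rpow_add hx0, Real.rpow_one, Real.rpow_def_of_pos hx0]
    congr 2
    ring
  have hE : Real.exp (-(Real.log x / (2 * l))) ≤ Real.exp (-(4 * l)) := by
    apply Real.exp_le_exp.2
    rw [neg_le_neg_iff, le_div_iff₀ (by positivity)]
    have : 8 * l ^ 2 ≤ l ^ 22 / 2 := by
      have e1 : l ^ 22 = l ^ 20 * l ^ 2 := by ring
      rw [e1]
      nlinarith [sq_nonneg l]
    nlinarith
  have hM : 48 * (C0 * (2 * l) ^ K) ≤ Real.exp l := by
    refine le_trans (le_of_eq ?_) hd1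
    rw [mul_pow]; ring
  have t1 : 48 * (x ^ (1 - 1 / (2 * l)) * (C0 * Real.exp (2 * l) * (2 * l) ^ K)) ≤
      x * Real.exp (-l) := by
    rw [hXδ]
    calc 48 * (x * Real.exp (-(Real.log x / (2 * l))) * (C0 * Real.exp (2 * l) * (2 * l) ^ K))
        = x * (48 * (C0 * (2 * l) ^ K)) * Real.exp (2 * l) *
          Real.exp (-(Real.log x / (2 * l))) := by ring
      _ ≤ x * Real.exp l * Real.exp (2 * l) * Real.exp (-(4 * l)) := by gcongr
      _ = x * (Real.exp l * Real.exp (2 * l) * Real.exp (-(4 * l))) := by ring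
      _ = x * Real.exp (-l) := by
        rw [← Real.exp_add, ← Real.exp_add]
        congr 2
        ring
  have t2 : 48 * (x * (C0 * Real.exp (2 * l) * (2 * l) ^ K) / Real.exp (2 * l) ^ 2) ≤
      x * Real.exp (-l) := by
    calc 48 * (x * (C0 * Real.exp (2 * l) * (2 * l) ^ K) / Real.exp (2 * l) ^ 2)
        = x * (48 * (C0 * (2 * l) ^ K)) * (Real.exp (2 * l))⁻¹ := by
          field_simp
      _ ≤ x * Real.exp l * (Real.exp (2 * l))⁻¹ := by gcongr
      _ = x * (Real.exp l * (Real.exp (2 * l))⁻¹) := by ring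
      _ = x * Real.exp (-l) := by
        rw [← Real.exp_neg, ← Real.exp_add]
        congr 2
        ring
  have t3 : 48 * (x * (C1 * l ^ 84) / Real.exp (2 * l)) ≤ x * Real.exp (-l) := by
    calc 48 * (x * (C1 * l ^ 84) / Real.exp (2 * l))
        = x * (48 * C1 * l ^ 84) * (Real.exp (2 * l))⁻¹ := by
          field_simp
      _ ≤ x * Real.exp l * (Real.exp (2 * l))⁻¹ := by gcongr
      _ = x * (Real.exp l * (Real.exp (2 * l))⁻¹) := by ring
      _ = x * Real.exp (-l) := by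
        rw [← Real.exp_neg, ← Real.exp_add]
        congr 2
        ring
  have hfin : x * Real.exp (-l) ≤ x * Real.exp (-(7 * l / 8)) := by
    gcongr
    linarith
  linarith

end Pool.Agent.N658.SP
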